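import Pool.Agent.L7h14.QX.Stm

/-!
# QX, part DET: the determinants of the leading coefficients do not vanish
-/

set_option autoImplicit false

namespace Pool.Agent.L7h56.QX

open Finset Pool.Agent.L7h14.QX

/-- the 3x3 determinant, in polynomial form -/
theorem pos3 (x0 x1 x2 N0 N1 N2 : ℚ) (h0 : 0 ≤ x0) (h1 : x0 + 1 ≤ x1) (h2 : x1 + 1 ≤ x2)
    (hN0 : N1 ≤ N0) (hN1 : N2 ≤ N1) (hx : x2 ≤ N2) (_hN : 1 < N2) :
    0 < (N0 - 1) * x2 * (x1 * N0 - x0 * N1) * ((x2 - 1) * (N1 - 1) - (x1 - 1) * (N2 - 1)) -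
      (N2 - 1) * x0 * (x2 * N1 - x1 * N2) * ((x1 - 1) * (N0 - 1) - (x0 - 1) * (N1 - 1)) := by
  have P01 : 0 < x1 * N0 - x0 * N1 := by
    have e : x1 * N0 - x0 * N1 = x1 * (N0 - N1) + (x1 - x0) * N1 := by ring
    rw [e]
    have : 0 < (x1 - x0) * N1 := mul_pos (by linarith) (by linarith)
    have : 0 ≤ x1 * (N0 - N1) := mul_nonneg (by linarith) (by linarith)
    linarith
  have P12 : 0 < x2 * N1 - x1 * N2 := by
    have e : x2 * N1 - x1 * N2 = x2 * (N1 - N2) + (x2 - x1) * N2 := by ring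
    rw [e]
    have : 0 < (x2 - x1) * N2 := mul_pos (by linarith) (by linarith)
    have : 0 ≤ x2 * (N1 - N2) := mul_nonneg (by linarith) (by linarith)
    linarith
  have Q01 : (x1 - 1) * (N0 - 1) - (x0 - 1) * (N1 - 1) ≤ x1 * N0 - x0 * N1 := by
    have e : x1 * N0 - x0 * N1 - ((x1 - 1) * (N0 - 1) - (x0 - 1) * (N1 - 1)) =
      (x1 - x0) + (N0 - N1) := by ring
    linarith
  have Q12 : (x2 - 1) * (x2 * N1 - x1 * N2) ≤
      x2 * ((x2 - 1) * (N1 - 1) - (x1 - 1) * (N2 - 1)) := by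
    have e : x2 * ((x2 - 1) * (N1 - 1) - (x1 - 1) * (N2 - 1)) -
      (x2 - 1) * (x2 * N1 - x1 * N2) = (x2 - x1) * (N2 - x2) := by ring
    have : 0 ≤ (x2 - x1) * (N2 - x2) := mul_nonneg (by linarith) (by linarith)
    linarith
  have A : (N0 - 1) * (x1 * N0 - x0 * N1) * ((x2 - 1) * (x2 * N1 - x1 * N2)) ≤
      (N0 - 1) * (x1 * N0 - x0 * N1) * (x2 * ((x2 - 1) * (N1 - 1) - (x1 - 1) * (N2 - 1))) :=
    mul_le_mul_of_nonneg_left Q12 (mul_nonneg (by linarith) P01.le)
  have B : (N2 - 1) * x0 * (x2 * N1 - x1 * N2) * ((x1 - 1) * (N0 - 1) - (x0 - 1) * (N1 - 1)) ≤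
      (N2 - 1) * x0 * (x2 * N1 - x1 * N2) * (x1 * N0 - x0 * N1) :=
    mul_le_mul_of_nonneg_left Q01 (mul_nonneg (mul_nonneg (by linarith) h0) P12.le)
  have C : (N2 - 1) * x0 < (N0 - 1) * (x2 - 1) := by
    have c1 : (N2 - 1) * x0 < (N2 - 1) * (x2 - 1) :=
      mul_lt_mul_of_pos_left (by linarith) (by linarith)
    have c2 : (N2 - 1) * (x2 - 1) ≤ (N0 - 1) * (x2 - 1) :=
      mul_le_mul_of_nonneg_right (by linarith) (by linarith)
    linarith
  have D : (N2 - 1) * x0 * ((x2 * N1 - x1 * N2) * (x1 * N0 - x0 * N1)) <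
      (N0 - 1) * (x2 - 1) * ((x2 * N1 - x1 * N2) * (x1 * N0 - x0 * N1)) :=
    mul_lt_mul_of_pos_right C (mul_pos P12 P01)
  nlinarith [A, B, D]

/-- scaling of the rows -/
theorem det_ne {n : ℕ} (D W : Matrix (Fin n) (Fin n) ℚ) (v C : Fin n → ℚ)
    (hC : ∀ i, C i ≠ 0) (h : ∀ i j, v i * D i j = C i * W i j) (hW : W.det ≠ 0) :
    D.det ≠ 0 := by
  intro h0
  have e : (Matrix.of fun i j => v i * D i j) = Matrix.of fun i j => C i * W i j := by
    ext i j; simpa using h i j
  have e2 := congrArg Matrix.det e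
  rw [Matrix.det_mul_column, Matrix.det_mul_column, h0, mul_zero] at e2
  rcases mul_eq_zero.1 e2.symm with h1 | h1
  · exact (Finset.prod_ne_zero_iff.2 fun i _ => hC i) h1
  · exact hW h1

/-- the falling factorials: lowering the argument by one -/
theorem df1 (N k : ℕ) (hN : 1 ≤ N) :
    (N : ℚ) * ((N - 1).descFactorial k : ℚ) = ((N - k : ℕ) : ℚ) * (N.descFactorial k : ℚ) := by
  obtain ⟨M, rfl⟩ : ∃ M, N = M + 1 := ⟨N - 1, by omega⟩
  have := Nat.succ_descFactorial M k
  simp only [Nat.add_sub_cancel]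
  exact_mod_cast this.symm

theorem prod_desc (N k : ℕ) :
    ((List.range k).map fun i : ℕ => (N : ℚ) - i).prod = (N.descFactorial k : ℚ) := by
  induction k with
  | zero => simp
  | succ k ih =>
    rw [List.range_succ, List.map_append, List.prod_append, ih, Nat.descFactorial_succ]
    simp only [List.map_cons, List.map_nil, List.prod_cons, List.prod_nil, mul_one]
    rcases Nat.lt_or_ge N k with h | h
    · rw [Nat.descFactorial_of_lt h]; simp
    · rw [Nat.cast_mul, Nat.cast_sub h]; ring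

theorem prod_fact (k : ℕ) :
    ((List.range k).map fun i : ℕ => (1 : ℚ) + i).prod = (k.factorial : ℚ) := by
  induction k with
  | zero => simp
  | succ k ih =>
    rw [List.range_succ, List.map_append, List.prod_append, ih, Nat.factorial_succ]
    simp only [List.map_cons, List.map_nil, List.prod_cons, List.prod_nil, mul_one]
    push_cast; ring

theorem evL (m l u j : ℕ) (hj : j ≤ m) :
    ev (Ls m l u) j (m - j + u) =
      ((m + u - j).descFactorial (m - l) : ℚ) * ((l - 1).factorial : ℚ) := by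
  rw [← prod_desc, ← prod_fact]
  unfold ev Ls
  rw [List.map_append, List.prod_append, List.map_map, List.map_map]
  have e : m - j + u = m + u - j := by omega
  rw [e]
  have c : ((m + u - j : ℕ) : ℚ) = (m : ℚ) + u - j := by
    rw [Nat.cast_sub (by omega), Nat.cast_add]
  congr 2
  · apply List.map_congr_left
    intro a _
    simp
  · apply List.map_congr_left
    intro a _
    simp only [Function.comp, c]
    ring

/-- the common factor of the row -/
noncomputable def CC (m l u : ℕ) : ℚ :=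
  ((m + u).descFactorial (m - l) : ℚ) * ((l - 1).factorial : ℚ)

theorem CC_ne (m l u : ℕ) : CC m l u ≠ 0 := by
  unfold CC
  have h1 : (m + u).descFactorial (m - l) ≠ 0 := by
    intro h
    rw [Nat.descFactorial_eq_zero_iff_lt] at h
    omega
  have h2 : (l - 1).factorial ≠ 0 := Nat.factorial_ne_zero _
  positivity

theorem ev0 (m l u : ℕ) : ev (Ls m l u) 0 (m - 0 + u) = CC m l u := by
  rw [evL m l u 0 (by omega)]; rfl

theorem ev1 (m l u : ℕ) (h1 : 1 ≤ l) (h2 : l ≤ m) :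
    ((m : ℚ) + u) * ev (Ls m l u) 1 (m - 1 + u) = CC m l u * ((l : ℚ) + u) := by
  rw [evL m l u 1 (by omega)]
  unfold CC
  have h := df1 (m + u) (m - l) (by omega)
  have c : ((m + u - (m - l) : ℕ) : ℚ) = (l : ℚ) + u := by
    have : m + u - (m - l) = l + u := by omega
    rw [this]; push_cast; ring
  rw [c] at h
  push_cast at h
  linear_combination ((l - 1).factorial : ℚ) * h

theorem ev2 (m l u : ℕ) (h1 : 1 ≤ l) (h2 : l ≤ m) (h3 : 2 ≤ m) :
    (((m : ℚ) + u) * ((m : ℚ) + u - 1)) * ev (Ls m l u) 2 (m - 2 + u) =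
      CC m l u * (((l : ℚ) + u) * ((l : ℚ) + u - 1)) := by
  rw [evL m l u 2 (by omega)]
  unfold CC
  have h := df1 (m + u) (m - l) (by omega)
  have h' := df1 (m + u - 1) (m - l) (by omega)
  have c : ((m + u - (m - l) : ℕ) : ℚ) = (l : ℚ) + u := by
    have : m + u - (m - l) = l + u := by omega
    rw [this]; push_cast; ring
  have c' : ((m + u - 1 - (m - l) : ℕ) : ℚ) = (l : ℚ) + u - 1 := by
    have : m + u - 1 - (m - l) = l + u - 1 := by omega
    rw [this, Nat.cast_sub (by omega)]; push_cast; ring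
  have d : ((m + u - 1 : ℕ) : ℚ) = (m : ℚ) + u - 1 := by
    rw [Nat.cast_sub (by omega)]; push_cast; ring
  have e : m + u - 1 - 1 = m + u - 2 := by omega
  rw [c] at h
  rw [c', e, d] at h'
  push_cast at h
  linear_combination ((l - 1).factorial : ℚ) * (((m : ℚ) + u) * h' + ((l : ℚ) + u - 1) * h)

theorem det3of (a b c d e f g h i : ℚ) : (!![a, b, c; d, e, f; g, h, i]).det =
    a * e * i - a * f * h - b * d * i + b * f * g + c * d * h - c * e * g := by
  simp [Matrix.det_fin_three]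

theorem s_DET : S_DET := by
  refine ⟨?_, ?_⟩
  · intro m l u hl hu hs
    obtain ⟨a1, a2, a3⟩ := hs 0
    obtain ⟨b1, b2, b3⟩ := hs 1
    apply det_ne _ (!![(m : ℚ) + u 0, (l 0 : ℚ) + u 0; (m : ℚ) + u 1, (l 1 : ℚ) + u 1])
      (fun s => (m : ℚ) + u s) (fun s => CC m (l s) (u s)) (fun s => CC_ne _ _ _)
    · intro s j
      have k0 := ev0 m (l s) (u s)
      have k1 := ev1 m (l s) (u s) (hs s).1 (hs s).2.1
      fin_cases s <;> fin_cases j <;> simp at k0 k1 ⊢ <;> first | (rw [k0]; ring) | exact k1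
    · rw [Matrix.det_fin_two_of]
      have ha : (l 0 : ℚ) + 1 ≤ l 1 := by exact_mod_cast hl
      have hb : (u 0 : ℚ) ≤ u 1 := by exact_mod_cast hu
      have hc : (l 1 : ℚ) ≤ m := by exact_mod_cast b2
      have hd : (1 : ℚ) ≤ l 0 := by exact_mod_cast a1
      have h0 : (0 : ℚ) ≤ u 0 := by positivity
      have e : ((m : ℚ) + u 0) * (l 1 + u 1) - (l 0 + u 0) * (m + u 1) =
        m * (l 1 - l 0) + ((m - l 1) * (u 1 - u 0) + (l 1 - l 0) * u 1) := by ring
      rw [e]
      have p1 : 0 < (m : ℚ) * (l 1 - l 0) := mul_pos (by linarith) (by linarith)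
      have p2 : 0 ≤ ((m : ℚ) - l 1) * (u 1 - u 0) := mul_nonneg (by linarith) (by linarith)
      have p3 : 0 ≤ ((l 1 : ℚ) - l 0) * u 1 := mul_nonneg (by linarith) (by linarith)
      linarith
  · intro m l u hl hl' hu hu' hs
    obtain ⟨a1, a2, a3⟩ := hs 0
    obtain ⟨b1, b2, b3⟩ := hs 1
    obtain ⟨c1, c2, c3⟩ := hs 2
    apply det_ne _ (!![((m : ℚ) + u 0) * (m + u 0 - 1), (m + u 0 - 1) * (l 0 + u 0),
        (l 0 + u 0) * (l 0 + u 0 - 1);
        ((m : ℚ) + u 1) * (m + u 1 - 1), (m + u 1 - 1) * (l 1 + u 1),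
        (l 1 + u 1) * (l 1 + u 1 - 1);
        ((m : ℚ) + u 2) * (m + u 2 - 1), (m + u 2 - 1) * (l 2 + u 2),
        (l 2 + u 2) * (l 2 + u 2 - 1)])
      (fun s => ((m : ℚ) + u s) * (m + u s - 1)) (fun s => CC m (l s) (u s))
      (fun s => CC_ne _ _ _)
    · intro s j
      have k0 := ev0 m (l s) (u s)
      have k1 := ev1 m (l s) (u s) (hs s).1 (hs s).2.1
      have k2 := ev2 m (l s) (u s) (hs s).1 (hs s).2.1 (by omega)
      fin_cases s <;> fin_cases j <;> simp at k0 k1 k2 ⊢ <;>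
        first
        | exact k2
        | (rw [k0]; ring)
        | linear_combination ((m : ℚ) + u 0 - 1) * k1
        | linear_combination ((m : ℚ) + u 1 - 1) * k1
        | linear_combination ((m : ℚ) + u 2 - 1) * k1
    · rw [det3of]
      have ha : (l 0 : ℚ) + 1 ≤ l 1 := by exact_mod_cast hl
      have ha' : (l 1 : ℚ) + 1 ≤ l 2 := by exact_mod_cast hl'
      have hb : (u 0 : ℚ) ≤ u 1 := by exact_mod_cast hu
      have hb' : (u 1 : ℚ) ≤ u 2 := by exact_mod_cast hu'
      have hc : (l 2 : ℚ) ≤ m := by exact_mod_cast c2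
      have hd : (1 : ℚ) ≤ l 0 := by exact_mod_cast a1
      have h0 : (0 : ℚ) ≤ u 0 := by positivity
      have key := pos3 ((m : ℚ) - l 2) (m - l 1) (m - l 0) (m + u 2) (m + u 1) (m + u 0)
        (by linarith) (by linarith) (by linarith) (by linarith) (by linarith) (by linarith)
        (by linarith)
      apply ne_of_gt
      refine lt_of_lt_of_eq key ?_
      ring
end Pool.Agent.L7h56.QX
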